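import Pool.Agent.H.MP_6503f0_an.A

set_option autoImplicit false

namespace Pool.Agent.Results.MP_2cba5e_an.Yes

open Pool.Agent.H.MP_6503f0_an Filter

theorem result (A : Type) [NormedAddCommGroup A] [NormedSpace ℂ A] [CompleteSpace A]
    (m : A →L[ℂ] A →L[ℂ] A) (s : A → A) (h : IsJB (pr m) s) (Λ M : Type) (l : Filter Λ)
    (l' : Filter M) (x : Λ → Bi A) (y : M → Bi A) (x₀ y₀ : Bi A) (r : ℝ)
    (hx₀ : x₀ ∈ Mult m) (hy₀ : y₀ ∈ Mult m) (bx : ∀ i, ‖x i‖ ≤ r) (bY : ∀ j, ‖y j‖ ≤ r)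
    (hx : Tendsto x l (@nhds (Bi A) (js m) x₀)) (hy : Tendsto y l' (@nhds (Bi A) (js m) y₀)) :
    Tendsto (fun p : Λ × M => ar m (x p.1) (y p.2)) (l ×ˢ l')
      (@nhds (Bi A) (js m) (ar m x₀ y₀)) :=
  h.jb.joint hx₀ hy₀ (hx.comp tendsto_fst) (hy.comp tendsto_snd) (.of_forall fun p => bx p.1)
    (.of_forall fun p => bY p.2)

end Pool.Agent.Results.MP_2cba5e_an.Yes
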